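import Mathlib

namespace Pool.Agent.Results.MP_e47ea7_co.SmallPath

open SimpleGraph

/-- `φ` is a rainbow copy of `H` among the edges `E` coloured by `χ`. -/
def RainbowCopy {k n : ℕ} (H : SimpleGraph (Fin k)) (E : Set (Sym2 (Fin n)))
    (χ : Sym2 (Fin n) → ℕ) (φ : Fin k ↪ Fin n) : Prop :=
  (∀ e ∈ H.edgeSet, e.map φ ∈ E) ∧
    ∀ e ∈ H.edgeSet, ∀ e' ∈ H.edgeSet, χ (e.map φ) = χ (e'.map φ) → e = e'

/-- `(G, χ)` is weakly `H`-rainbow saturated in `K_n`: the non-edges can be listed as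
`e 0, ..., e (m-1)` so that for all pairwise distinct colours on them (a colouring `ψ` agreeing
with `χ` on `G` and injective on the list), each `e i` lies in a rainbow copy of `H` in
`G + e 0 + ... + e i`. -/
def WeakSat {k n : ℕ} (H : SimpleGraph (Fin k)) (G : SimpleGraph (Fin n))
    (χ : Sym2 (Fin n) → ℕ) : Prop :=
  ∃ (m : ℕ) (e : Fin m → Sym2 (Fin n)), Function.Injective e ∧ Set.range e = Gᶜ.edgeSet ∧
    ∀ ψ : Sym2 (Fin n) → ℕ, (∀ f ∈ G.edgeSet, ψ f = χ f) → Function.Injective (ψ ∘ e) →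
      ∀ i, ∃ φ, RainbowCopy H (G.edgeSet ∪ e '' {j | j ≤ i}) ψ φ ∧
        ∃ f ∈ H.edgeSet, f.map φ = e i

/-- `rwsat(n, H)`, in the extended naturals. -/
noncomputable def rwsat {k : ℕ} (n : ℕ) (H : SimpleGraph (Fin k)) : ℕ∞ :=
  sInf {x | ∃ (G : SimpleGraph (Fin n)) (χ : Sym2 (Fin n) → ℕ), WeakSat H G χ ∧
    G.edgeSet.encard = x}

/-- `rwsat*(n, H)`: only rainbow `H`-free starting graphs. -/
noncomputable def rwsatFree {k : ℕ} (n : ℕ) (H : SimpleGraph (Fin k)) : ℕ∞ :=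
  sInf {x | ∃ (G : SimpleGraph (Fin n)) (χ : Sym2 (Fin n) → ℕ), WeakSat H G χ ∧
    (¬ ∃ φ, RainbowCopy H G.edgeSet χ φ) ∧ G.edgeSet.encard = x}

lemma P_edges : (pathGraph 3).edgeSet = {s(0, 1), s(1, 2)} := by
  ext e
  induction e using Sym2.ind with
  | h a b => fin_cases a <;> fin_cases b <;> simp [pathGraph_adj]

lemma Pc_edges : (pathGraph 3)ᶜ.edgeSet = {s(0, 2)} := by
  ext e
  induction e using Sym2.ind with
  | h a b => fin_cases a <;> fin_cases b <;> simp [pathGraph_adj]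

lemma rb {E : Set (Sym2 (Fin 3))} {χ : Sym2 (Fin 3) → ℕ} {φ : Fin 3 ↪ Fin 3} :
    RainbowCopy (pathGraph 3) E χ φ ↔ s(φ 0, φ 1) ∈ E ∧ s(φ 1, φ 2) ∈ E ∧
      χ s(φ 0, φ 1) ≠ χ s(φ 1, φ 2) := by
  simp [RainbowCopy, P_edges, and_assoc, eq_comm]

lemma upper : rwsat 3 (pathGraph 3) ≤ 2 := by
  apply sInf_le
  refine ⟨pathGraph 3, fun e => if e = s(0, 1) then 0 else 1, ⟨1, fun _ => s(0, 2),
    fun a b _ => Subsingleton.elim a b, by simp [Pc_edges], ?_⟩, ?_⟩
  · intro ψ hψ _ i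
    have h1 := hψ s(0, 1) (by simp [P_edges])
    have h2 := hψ s(1, 2) (by simp [P_edges])
    simp at h1 h2
    have hm : s((0 : Fin 3), (2 : Fin 3)) ∈ (fun _ : Fin 1 => s((0 : Fin 3), (2 : Fin 3))) ''
        {j | j ≤ i} := ⟨i, le_refl i, rfl⟩
    by_cases h : ψ s(0, 2) = 0
    · refine ⟨⟨![0, 2, 1], by decide⟩, rb.2 ⟨Or.inr hm, Or.inl ?_, ?_⟩, s(0, 1), ?_, rfl⟩
      · simp [pathGraph_adj]
      · have : s((2 : Fin 3), (1 : Fin 3)) = s(1, 2) := Sym2.eq_swap
        simp [h, this, h2]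
      · simp [P_edges]
    · refine ⟨⟨![1, 0, 2], by decide⟩, rb.2 ⟨Or.inl ?_, Or.inr hm, ?_⟩, s(1, 2), ?_, rfl⟩
      · simp [pathGraph_adj]
      · have : s((1 : Fin 3), (0 : Fin 3)) = s(0, 1) := Sym2.eq_swap
        simp [this, h1, Ne.symm h]
      · simp [P_edges]
  · rw [P_edges, Set.encard_pair (by decide)]

lemma mono (G : SimpleGraph (Fin 3)) (χ : Sym2 (Fin 3) → ℕ)
    (h : ¬ ∃ φ, RainbowCopy (pathGraph 3) G.edgeSet χ φ) :
    ∃ c, ∀ f ∈ G.edgeSet, χ f = c := by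
  have key : ∀ a b c, a ≠ c → G.Adj a b → G.Adj b c → χ s(a, b) = χ s(b, c) := by
    intro a b c hac h1 h2
    by_contra hne
    refine h ⟨⟨![a, b, c], ?_⟩, rb.2 ⟨h1, h2, hne⟩⟩
    have := h1.ne
    have := h2.ne
    intro i j
    fin_cases i <;> fin_cases j <;> simp <;> grind
  by_cases he : G.edgeSet.Nonempty
  · obtain ⟨e, he⟩ := he
    refine ⟨χ e, fun f hf => ?_⟩
    induction e using Sym2.ind with
    | h a b =>
      induction f using Sym2.ind with
      | h c d =>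
        rw [mem_edgeSet] at he hf
        have k1 := key a b
        have k2 := key b a
        have s1 : s(a, b) = s(b, a) := Sym2.eq_swap
        have s2 : s(c, d) = s(d, c) := Sym2.eq_swap
        have := he.ne
        have := hf.ne
        have h4 : c = a ∨ c = b ∨ d = a ∨ d = b := by omega
        have := he.symm
        have := hf.symm
        grind
  · exact ⟨0, fun f hf => absurd ⟨f, hf⟩ he⟩

lemma lower : 3 ≤ rwsatFree 3 (pathGraph 3) := by
  apply le_sInf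
  rintro x ⟨G, χ, ⟨m, e, he, hr, hs⟩, hf, rfl⟩
  obtain ⟨c, hc⟩ := mono G χ hf
  cases m with
  | zero =>
    have : Gᶜ = ⊥ := by
      rw [← edgeSet_eq_empty, ← hr]; simp
    have : G = ⊤ := by simpa using this
    rw [this, ← coe_edgeFinset, Set.encard_coe_eq_coe_finsetCard,
      card_edgeFinset_top_eq_card_choose_two]
    simp [Nat.choose]
  | succ m =>
    exfalso
    classical
    let ψ : Sym2 (Fin 3) → ℕ := fun f =>
      if h : ∃ j, e j = f then c + (Classical.choose h).val else c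
    have hψ : ∀ j, ψ (e j) = c + j.val := by
      intro j
      have h : ∃ i, e i = e j := ⟨j, rfl⟩
      simp only [ψ, dif_pos h]
      rw [he (Classical.choose_spec h)]
    have hG : ∀ f ∈ G.edgeSet, ψ f = c := by
      intro f hf
      apply dif_neg
      rintro ⟨j, rfl⟩
      have : e j ∈ Gᶜ.edgeSet := hr ▸ Set.mem_range_self j
      revert this hf
      induction e j using Sym2.ind with
      | h a b => simp; tauto
    obtain ⟨φ, h1, -⟩ := hs ψ (fun f hf => by rw [hG f hf, hc f hf])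
      (fun i j h => by
        simp only [Function.comp, hψ] at h
        exact Fin.ext (by omega)) 0
    have all : ∀ f ∈ G.edgeSet ∪ e '' {j | j ≤ 0}, ψ f = c := by
      rintro f (h | ⟨j, hj, rfl⟩)
      · exact hG f h
      · rw [hψ, Fin.le_zero_iff.1 hj]; simp
    obtain ⟨a1, a2, a3⟩ := rb.1 h1
    exact a3 ((all _ a1).trans (all _ a2).symm)

theorem result :
    ∃ (k : ℕ) (H : SimpleGraph (Fin k)) (n : ℕ), H.edgeSet.Nonempty ∧ 1 ≤ n ∧
      rwsat n H < rwsatFree n H := by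
  refine ⟨3, pathGraph 3, 3, ⟨s(0, 1), by simp [P_edges]⟩, by norm_num, ?_⟩
  exact lt_of_le_of_lt upper (lt_of_lt_of_le (by decide) lower)

end Pool.Agent.Results.MP_e47ea7_co.SmallPath
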